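import Pool.Agent.helper64.PB.SpecL

/-!
# Row pb:CLB (MP_069684_lc)
-/

set_option autoImplicit false

namespace Pool.Agent.PB

theorem CLB_selfDual {n : ℕ} (f : BF n) : SelfDual (eS f) := by
  intro z
  unfold eS
  simp only [Bool.not_not]
  cases z (Fin.natAdd n 0) <;> cases z (Fin.natAdd n 1) <;> simp

theorem CLB_zero {n : ℕ} (f : BF n) : eS f (fun _ => false) = false := by
  simp [eS]

theorem CLB (hSDM : SDM_stmt) (hESD : ESD_stmt) (hDNF : DNF_stmt) : CLB_stmt := by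
  intro G hT hW hS A
  have hA : ∃ g ∈ G, ¬ Affine g.2 := by
    by_contra h
    refine hT (Or.inl fun g hg => ?_)
    by_contra h1
    exact h ⟨g, hg, h1⟩
  have hM : ∃ g ∈ G, ¬ Mono g.2 := by
    by_contra h
    refine hW ⟨hT, Or.inl fun g hg => ?_⟩
    by_contra h1
    exact h ⟨g, hg, h1⟩
  obtain ⟨c, hc⟩ := hESD G (hSDM G hS hA hM)
  intro n hn
  rcases n with _ | _ | m
  · omega
  · exact ⟨0, [], Prog.nil, by simp, Or.inr ⟨0, rfl⟩⟩
  · obtain ⟨s, hs⟩ := hDNF.1 (m + 2) (eS (A m))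
    exact ⟨c * (s + (m + 2)), hc (m + 2) hn (eS (A m)) (CLB_selfDual _) (CLB_zero _) s hs⟩

end Pool.Agent.PB
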